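import Mathlib
import Pool.Agent.H23.RBM2

set_option autoImplicit false
set_option maxSynthPendingDepth 3

namespace Pool.Agent.Results.MP_dabbe0_pr.NotUniv

/-- value `0` or `1` of a binary unit -/
def val (x : Bool) : ℝ := if x then 1 else 0

/-- unnormalised weight of a visible state: the sum over hidden states of
`exp (b·v + c·h + v W h)` -/
noncomputable def wt {n m : ℕ} (W : Fin n → Fin m → ℝ) (b : Fin n → ℝ) (c : Fin m → ℝ)
    (v : Fin n → Bool) : ℝ :=
  ∑ h : Fin m → Bool, Real.exp (∑ i, b i * val (v i) + ∑ j, c j * val (h j) +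
    ∑ i, ∑ j, val (v i) * W i j * val (h j))

/-- the distributions on `{0,1}^n` represented by a binary RBM with `m` hidden units -/
def RBM (n m : ℕ) : Set ((Fin n → Bool) → ℝ) :=
  {p | ∃ (W : Fin n → Fin m → ℝ) (b : Fin n → ℝ) (c : Fin m → ℝ),
    p = fun v => wt W b c v / ∑ u, wt W b c u}

open Pool.Agent.H23.RBM

lemma wt_eq {n m : ℕ} (W : Fin n → Fin m → ℝ) (b : Fin n → ℝ) (c : Fin m → ℝ)
    (v : Fin n → Bool) : wt W b c v = Real.exp (∑ i, b i * val (v i)) *
      ∏ j, (1 + Real.exp (c j + ∑ i, W i j * val (v i))) := by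
  have h1 : ∀ j, (1 + Real.exp (c j + ∑ i, W i j * val (v i))) =
      ∑ x : Bool, Real.exp ((c j + ∑ i, W i j * val (v i)) * val x) := by
    intro j; simp [val, add_comm]
  simp_rw [h1]
  rw [Finset.prod_univ_sum, Fintype.piFinset_univ, Finset.mul_sum]
  refine Finset.sum_congr rfl fun h _ => ?_
  rw [← Real.exp_sum, ← Real.exp_add]
  congr 1
  rw [add_assoc]
  congr 1
  rw [Finset.sum_comm, ← Finset.sum_add_distrib]
  refine Finset.sum_congr rfl fun j _ => ?_
  rw [add_mul, Finset.sum_mul]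
  congr 1
  exact Finset.sum_congr rfl fun i _ => by ring

lemma wt_pos {n m : ℕ} (W : Fin n → Fin m → ℝ) (b : Fin n → ℝ) (c : Fin m → ℝ)
    (v : Fin n → Bool) : 0 < wt W b c v := by
  rw [wt_eq]; positivity

noncomputable def chi (v : Fin 4 → Bool) : ℝ :=
  (1 - 2 * val (v 0)) * (1 - 2 * val (v 1)) * (1 - 2 * val (v 2)) * (1 - 2 * val (v 3))

noncomputable def q (v : Fin 4 → Bool) : ℝ :=
  Real.exp (1000 * chi v) / ∑ u, Real.exp (1000 * chi u)

lemma exv {x : ℝ} (h : x = 0 ∨ x = 1) : ∃ y, val y = x := by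
  rcases h with rfl | rfl
  · exact ⟨false, by simp [val]⟩
  · exact ⟨true, by simp [val]⟩

theorem result : ∃ p ∈ stdSimplex ℝ (Fin 4 → Bool), p ∉ closure (RBM 4 3) := by
  have hZ : 0 < ∑ u, Real.exp (1000 * chi u) :=
    Finset.sum_pos (fun u _ => Real.exp_pos _) Finset.univ_nonempty
  have hq : ∀ v, 0 < q v := fun v => div_pos (Real.exp_pos _) hZ
  refine ⟨q, ⟨fun v => (hq v).le, ?_⟩, fun hc => ?_⟩
  · unfold q
    rw [← Finset.sum_div, div_self hZ.ne']
  have hev : ∀ᶠ p in nhds q, ∀ v, |Real.log (p v) - Real.log (q v)| < 1 := by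
    rw [Filter.eventually_all]
    intro v
    have h1 : ContinuousAt (fun p : (Fin 4 → Bool) → ℝ => Real.log (p v)) q :=
      (continuous_apply v).continuousAt.log (hq v).ne'
    have := Metric.tendsto_nhds.1 h1 1 one_pos
    simpa [Real.dist_eq] using this
  obtain ⟨p, hp1, W, b, c, rfl⟩ := mem_closure_iff_nhds.1 hc _ hev
  have hZ' : 0 < ∑ u, wt W b c u :=
    Finset.sum_pos (fun u _ => wt_pos W b c u) Finset.univ_nonempty
  let un : Fin 3 → U := fun j => ⟨c j, W 0 j, W 1 j, W 2 j, W 3 j⟩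
  refine trop (Or.inl rfl) ⟨Real.log (∑ u, Real.exp (1000 * chi u)) - Real.log (∑ u, wt W b c u),
    b 0, b 1, b 2, b 3⟩ (un 0) (un 1) (un 2) ?_
  intro x0 x1 x2 x3 h0 h1 h2 h3
  obtain ⟨y0, rfl⟩ := exv h0
  obtain ⟨y1, rfl⟩ := exv h1
  obtain ⟨y2, rfl⟩ := exv h2
  obtain ⟨y3, rfl⟩ := exv h3
  have h := hp1 ![y0, y1, y2, y3]
  simp only [q] at h
  rw [Real.log_div (wt_pos _ _ _ _).ne' hZ'.ne', Real.log_div (Real.exp_pos _).ne' hZ.ne',
    Real.log_exp, wt_eq, Real.log_mul (Real.exp_pos _).ne' (by positivity), Real.log_exp,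
    Real.log_prod (fun j _ => by positivity), Fin.sum_univ_three] at h
  have e : ∀ j, c j + ∑ i, W i j * val (![y0, y1, y2, y3] i) =
      (un j).l (val y0) (val y1) (val y2) (val y3) := by
    intro j
    simp [Fin.sum_univ_four, U.l, un]
    ring
  rw [e, e, e] at h
  have s0 := softplus ((un 0).l (val y0) (val y1) (val y2) (val y3))
  have s1 := softplus ((un 1).l (val y0) (val y1) (val y2) (val y3))
  have s2 := softplus ((un 2).l (val y0) (val y1) (val y2) (val y3))
  have e2 : ∑ i, b i * val (![y0, y1, y2, y3] i) =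
      b 0 * val y0 + b 1 * val y1 + b 2 * val y2 + b 3 * val y3 := by
    simp [Fin.sum_univ_four]
  have e3 : chi ![y0, y1, y2, y3] =
      (1 - 2 * val y0) * (1 - 2 * val y1) * (1 - 2 * val y2) * (1 - 2 * val y3) := by
    simp [chi]
  rw [e2, e3, abs_lt] at h
  simp only [U.f]
  rw [abs_le]
  have e4 : U.l ⟨Real.log (∑ u, Real.exp (1000 * chi u)) - Real.log (∑ u, wt W b c u),
      b 0, b 1, b 2, b 3⟩ (val y0) (val y1) (val y2) (val y3) =
      Real.log (∑ u, Real.exp (1000 * chi u)) - Real.log (∑ u, wt W b c u) +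
        b 0 * val y0 + b 1 * val y1 + b 2 * val y2 + b 3 * val y3 := rfl
  rw [e4]
  constructor <;> linarith [h.1, h.2, s0.1, s0.2, s1.1, s1.2, s2.1, s2.2]

end Pool.Agent.Results.MP_dabbe0_pr.NotUniv
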